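import Pool.Agent.MP_fcd29e_an.H31.Spec3
import Pool.Agent.MP_fcd29e_an.H55.T4

/-! Homogenisation preserves the Sobolev space of real order. -/

set_option autoImplicit false

open MeasureTheory Complex Set Filter Topology Metric Pool.Agent.MP_fcd29e_an.H81
  Pool.Agent.MP_fcd29e_an.H31
open scoped ContDiff ComplexConjugate ENNReal NNReal FourierTransform SchwartzMap

namespace Pool.Agent.MP_fcd29e_an.H51

noncomputable section

variable {N : ℕ}

theorem hop_l2 (L : Lv2) (hN : 1 ≤ N) {κ : ℝ → ℝ} (hκ : Kap κ) (a b : ℤ) {g : E N → ℂ}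
    (hg : L2 (E0 N) g) : L2 (E0 N) (Hop κ a b g) := by
  have : Nonempty (Fin N) := ⟨⟨0, hN⟩⟩
  have h0 : (0 : E N) ∉ E0 N := fun h => h rfl
  obtain ⟨-, -, hc, hz, -⟩ := (L.t3.2 N).1 κ hκ
  have hm : AEStronglyMeasurable g volume := by
    have := ((L.t1 N (E0 N) isOpen_E0 h0).1 g hg).2.1
    rwa [MeasureTheory.restrict_compl_singleton] at this
  refine ((L.t4 N a b).2.2.2.2 κ hκ g hm).2.2 ?_
  obtain ⟨B, hB0, hB⟩ := H55.kap_bound hκ
  have h1 := hg (Sh N) hc hz
  have h2 := ((memLp_two_iff_integrable_sq_norm h1.1).1 h1).const_mul B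
  have hS : MeasurableSet (E0 N ∩ Sh N) := isOpen_E0.measurableSet.inter hc.measurableSet
  refine lt_of_le_of_lt ?_ h2.lintegral_lt_top
  rw [← lintegral_indicator hS]
  refine lintegral_mono fun z => ?_
  by_cases hk : κ (‖z‖ ^ 2) = 0
  · simp [hk]
  have h3 : z ∈ Sh N := ⟨(hκ.supp _ hk).1.le, (hκ.supp _ hk).2.le⟩
  have h4 : z ∈ E0 N := fun h => hz (by rw [← show z = 0 from h]; exact h3)
  rw [indicator_of_mem (mem_inter h4 h3)]
  exact ENNReal.ofReal_le_ofReal (mul_le_mul_of_nonneg_right (hB _) (by positivity))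

theorem memLp_cut (L : Lv2) {χ f : E N → ℂ} (hχ : Test (E0 N) χ) (hf : L2 (E0 N) f) :
    MemLp (fun z => χ z * f z) 2 volume := by
  have h0 : (0 : E N) ∉ E0 N := fun h => h rfl
  have h1 := ((L.t1 N (E0 N) isOpen_E0 h0).1 f hf).2.2.2.2.1 χ hχ.1.continuous.continuousOn
    (tsupport χ) hχ.2.1 fun h => h0 (hχ.2.2 h)
  have hS : MeasurableSet (E0 N ∩ tsupport χ) :=
    isOpen_E0.measurableSet.inter (isClosed_tsupport χ).measurableSet
  rw [← memLp_indicator_iff_restrict hS] at h1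
  have h2 : (E0 N ∩ tsupport χ).indicator (fun z => χ z * f z) = fun z => χ z * f z := by
    funext z
    by_cases hz : z ∈ tsupport χ
    · rw [indicator_of_mem (mem_inter (hχ.2.2 hz) hz)]
    · rw [indicator_of_notMem fun h => hz h.2, image_eq_zero_of_notMem_tsupport hz, zero_mul]
  rwa [h2] at h1

theorem swap {G w : E N → ℂ} (a b : ℤ) {r R : ℝ} (hr : 0 < r) (hG : Integrable G)
    (hw : Tst w) (hoff : ∀ c ∉ H55.ann r R, ∀ z, G z * w (c • z) = 0) :
    ∫ z, G z * Pp a b w z = ∫ c in H55.ann r R, H55.wt a b c * ∫ z, G z * w (c • z) := by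
  obtain ⟨B, hB⟩ := hw.1.continuous.bounded_above_of_compact_support hw.2
  have hTc := H55.isCompact_ann r R
  let F : E N → ℂ → ℂ := fun z c => H55.wt a b c * (G z * w (c • z))
  have hFm : AEStronglyMeasurable (Function.uncurry F) (volume.prod volume) :=
    H55.aesm_wt.mul (hG.1.comp_fst.mul
      (hw.1.continuous.comp (continuous_snd.smul continuous_fst)).aestronglyMeasurable)
  have hFi : Integrable (Function.uncurry F) (volume.prod volume) := by
    have hc : ContinuousOn (fun c => H55.wt a b c * B) (H55.ann r R) := fun c hc =>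
      ((H55.contDiffAt_wt (H55.ann_ne hr hc)).continuousAt.mul
        continuousAt_const).continuousWithinAt
    have h1 : Integrable ((H55.ann r R).indicator fun c => H55.wt a b c * B) :=
      (integrable_indicator_iff hTc.measurableSet).2 (hc.integrableOn_compact hTc)
    refine (hG.mul_prod h1).mono hFm (ae_of_all _ fun p => ?_)
    simp only [Function.uncurry, F]
    by_cases hp : p.2 ∈ H55.ann r R
    · rw [indicator_of_mem hp]
      simp only [norm_mul]
      have h2 : ‖w (p.2 • p.1)‖ ≤ ‖(B : ℂ)‖ := (hB _).trans (by simpa using le_abs_self B)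
      calc _ ≤ ‖H55.wt a b p.2‖ * (‖G p.1‖ * ‖(B : ℂ)‖) := by gcongr
        _ = _ := by ring
    · rw [hoff _ hp, mul_zero, norm_zero]
      exact norm_nonneg _
  calc ∫ z, G z * Pp a b w z = ∫ z, ∫ c, F z c := by
        refine integral_congr_ae (ae_of_all _ fun z => ?_)
        simp only [H55.pp_eq, F]
        rw [← integral_const_mul]
        refine integral_congr_ae (ae_of_all _ fun c => ?_)
        ring
    _ = ∫ c, ∫ z, F z c := integral_integral_swap hFi
    _ = ∫ c, H55.wt a b c * ∫ z, G z * w (c • z) := by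
        refine integral_congr_ae (ae_of_all _ fun c => ?_)
        simp only [F]
        rw [integral_const_mul]
    _ = _ := by
        refine (setIntegral_eq_integral_of_forall_compl_eq_zero fun c hc => ?_).symm
        simp [hoff c hc]

theorem hop (L : Lv2) : StmtHOP := by
  intro N hN s hs κ hκ a b g hg χ hχ
  have h0 : (0 : E N) ∉ E0 N := fun h => h rfl
  have hT := L.t1 N (E0 N) isOpen_E0 h0
  obtain ⟨hκt, hκs, hc, hz, -⟩ := (L.t3.2 N).1 κ hκ
  have hgl : L2 (E0 N) g := ((L.sbs N s hs).1 g hg).1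
  refine ⟨memLp_cut L hχ (hop_l2 L hN hκ a b hgl), ?_⟩
  obtain ⟨-, C₁, hC₁⟩ := hg _ hκt
  set G : E N → ℂ := fun z => (κ (‖z‖ ^ 2) : ℂ) * g z with hGd
  have hGi : Integrable G := by
    have := ((hT.1 g hgl).2.2.1 _ hκt.1.continuous hκt.2.1 hκt.2.2).1
    simpa only [hGd, mul_comm] using this
  have hG0 : ∀ z ∉ Sh N, G z = 0 := fun z h => by
    have : (κ (‖z‖ ^ 2) : ℂ) = 0 :=
      image_eq_zero_of_notMem_tsupport (f := fun z : E N => (κ (‖z‖ ^ 2) : ℂ)) fun h' => h (hκs h')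
    simp only [hGd, this, zero_mul]
  obtain ⟨r, R, hr, hR, hK⟩ := H55.shell hχ.2.1 fun h => h0 (hχ.2.2 h)
  have hr2 : 0 < r / 2 := by positivity
  obtain ⟨C₂, hC₂⟩ := L.dil N s (r / 2) hs hr2
  obtain ⟨C₃, hC₃⟩ := L.mul N s hs χ ⟨hχ.1, hχ.2.1⟩
  obtain ⟨M, hM0, hM⟩ := H55.wt_bound (a := -a - N) (b := -b - N) (R := R / 1) hr2
  set T := H55.ann (r / 2) (R / 1) with hTd
  have hTc : IsCompact T := H55.isCompact_ann _ _
  refine ⟨((M * volume.real T) ^ 2).toNNReal * (C₁ * C₂ * C₃), fun ψ hψ => ?_⟩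
  set w : E N → ℂ := fun z => χ z * ψ z with hwd
  have hw : Test (E0 N) w := by
    have := (hT.2.2.2.1 χ hχ).1 ψ hψ.1.contDiffOn
    simpa only [hwd, mul_comm] using this
  have hw' : Tst w := ⟨hw.1, hw.2.1⟩
  have hoff : ∀ c ∉ T, ∀ z, G z * w (c • z) = 0 := by
    intro c hcT z
    by_cases h1 : z ∈ Sh N
    · by_cases h2 : c • z ∈ tsupport χ
      · have h3 := norm_nonneg z
        exact (hcT (H55.mem_ann one_pos (by nlinarith [h1.1]) (by nlinarith [h1.2])
          (hK _ h2).1 (hK _ h2).2)).elim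
      · simp only [hwd, image_eq_zero_of_notMem_tsupport h2, zero_mul, mul_zero]
    · rw [hG0 z h1, zero_mul]
  have e1 : ∫ x, χ x * Hop κ a b g x * ψ x =
      ∫ c in T, H55.wt (-a - N) (-b - N) c * ∫ z, G z * w (c • z) := by
    rw [← swap _ _ hr2 hGi hw' hoff, ← (L.t4 N a b).2.2.2.1 G w (Sh N) hc hz hG0 hGi hw]
    refine integral_congr_ae (ae_of_all _ fun x => ?_)
    simp only [hwd, Hop, hGd]
    ring
  have hfin : FN s ψ < ⊤ := ((L.fa N ψ hψ).2.2.1 s hs).trans_lt (L.fa N ψ hψ).2.1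
  set A : ℝ≥0∞ := (C₁ * C₂ * C₃ : ℝ≥0) * FN s ψ with hA
  have hAf : A ≠ ⊤ := ENNReal.mul_ne_top ENNReal.coe_ne_top hfin.ne
  have e2 : ∀ c ∈ T, ‖∫ z, G z * w (c • z)‖ ≤ √A.toReal := by
    intro c hcT
    have h1 := hC₁ _ ((L.fa N w hw').2.2.2.2.2.2.2.2.1 c (H55.ann_ne hr2 hcT))
    have h2 : ENNReal.ofReal (‖∫ z, G z * w (c • z)‖ ^ 2) ≤ A := by
      refine h1.trans ?_
      rw [hA]
      push_cast
      rw [mul_assoc, mul_assoc]
      gcongr
      refine (hC₂ c hcT.1 w hw').trans ?_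
      gcongr
      exact hC₃ ψ hψ
    exact Real.le_sqrt_of_sq_le ((ENNReal.ofReal_le_iff_le_toReal hAf).1 h2)
  have e3 : ‖∫ c in T, H55.wt (-a - N) (-b - N) c * ∫ z, G z * w (c • z)‖ ≤
      M * √A.toReal * volume.real T := by
    refine norm_setIntegral_le_of_norm_le_const hTc.measure_lt_top fun c hcT => ?_
    rw [norm_mul]
    exact mul_le_mul (hM c hcT) (e2 c hcT) (norm_nonneg _) hM0
  rw [e1]
  calc _ ≤ ENNReal.ofReal ((M * volume.real T) ^ 2 * A.toReal) := by
        refine ENNReal.ofReal_le_ofReal ?_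
        calc _ ≤ (M * √A.toReal * volume.real T) ^ 2 := by gcongr
          _ = (M * volume.real T) ^ 2 * √A.toReal ^ 2 := by ring
          _ = _ := by rw [Real.sq_sqrt ENNReal.toReal_nonneg]
    _ = _ := by
        rw [ENNReal.ofReal_mul (by positivity), ENNReal.ofReal_toReal hAf, hA, ENNReal.coe_mul
          (((M * volume.real T) ^ 2).toNNReal)]
        exact (mul_assoc _ _ _).symm

end

end Pool.Agent.MP_fcd29e_an.H51
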